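import Mathlib
import Pool.Agent.Y221.PB.Top

/-!
MP_5b1cbc_ag, Q1: general type and pseudo-geometric hyperbolicity for the projective varieties
which are dominated by varieties given by high powers, or by their covers.

Let `V` be a closed subvariety of dimension `w ≥ 1` of a projective variety `{F = 0}`, over an
algebraically closed field of characteristic zero, which is given by sums of at most `s` powers of
linear forms, or by forms with at most `s` monomials and divisible exponents, the exponents being at
least `N ≥ 4 w 10 ^ s (ρ r + 1) ^ 7`. `V` is given by its function field `K` and its generic point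
`y` (`SubVar`, `Pool/Agent/W602/GT/SpDefs.lean`). We consider all projective varieties `X`, of
arbitrary singularities, for which there are generically finite dominant rational maps `X' ⇢ V` of
any degree and `X' ⇢ X` of degree at most `r`. `X` is given by its function field `L` and its
generic point `x`: `coords k x = ⊤` says that the ratios of the coordinates generate `L`.

`PseudoGeomHyp` (`Pool/Agent/W602/RG/TB.lean`): off a proper closed subset of `X`, for every pointed
curve there are finitely many morphisms to `X` with a given value at the marked point.
`PseudoBounded` (`Pool/Agent/Y221/PB/Rat.lean`): off a proper closed subset, the degrees of the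
morphisms from each curve to `X` are bounded. `CurveBound` (`Pool/Agent/Y216/Point.lean`),
`CoverBound` (`Pool/Agent/Y221/PB/Dom.lean`): off a proper closed subset, the degree of every
morphism to `X` from a curve `C`, or from a covering of degree at most `ρ` of a curve `C`, is at
most `A max (2 g (C) - 2, 0)`.
-/

set_option autoImplicit false

namespace Pool.Agent.Results.MP_5b1cbc_ag.DominatedVarieties

open Pool.Agent.W602.GT Pool.Agent.Y221.PB
open Pool.Agent.TH466.QG (RatCurve)
open Pool.Agent.W602.RG (PseudoGeomHyp)
open Pool.Agent.W619.PQ (IsUniruled)
open Pool.Agent.Y216 (CurveBound)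

/-- Let `V`, `s`, `N`, `w`, `r`, `ρ` be as above.

(1) If `V` is an irreducible component of `{F = 0}` which is not birational to `B × ℙ¹`, or if there
is no nonconstant rational curve in `{F = 0}` through the generic point of `V`, then all projective
varieties `X` with generically finite dominant rational maps `X' ⇢ V` and `X' ⇢ X`, the second of
degree at most `r`, are of general type and pseudo-geometrically hyperbolic, and the degrees of the
curves in `X`, and of the coverings of curves, are bounded linearly.

(2) If `V` is an irreducible component of `{F = 0}` and `V ⇢ X` is a dominant rational map of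
degree at most `r` to a projective variety, then the following are equivalent: `X` is of general
type; `X` is pseudo-geometrically hyperbolic; the degrees of the morphisms from each curve to `X`
are bounded off a proper closed subset; the same with a linear bound in the genus; the same for the
coverings of degree at most `ρ` of the curves; `X` is not uniruled; `V` is not birational to
`B × ℙ¹`. -/
theorem result {k : Type} [Field k] [IsAlgClosed k] [CharZero k] {n : ℕ} {ι : Type} [Finite ι]
    {F : ι → MvPolynomial (Fin (n + 1)) k} {s N r ρ w : ℕ} (hF : HighPowers s N F) (hw : 1 ≤ w)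
    (hρ : 1 ≤ ρ) (hN : w * (4 * 10 ^ s * (ρ * r + 1) ^ 7) ≤ N) {K : Type} [Field K] [Algebra k K]
    {y : Fin (n + 1) → K} (hy : SubVar F K w y) :
    (¬ RatCurve F y ∨ IsComponent F y ∧ ¬ Ruled k K →
      ∀ (K' L : Type) [Field K'] [Field L] [Algebra k K'] [Algebra k L] [Algebra K K']
        [Algebra L K'] [IsScalarTower k K K'] [IsScalarTower k L K'] [FiniteDimensional K K']
        [FiniteDimensional L K'], Module.finrank L K' ≤ r →
        ∀ (M : ℕ) (x : Fin (M + 1) → L), x ≠ 0 → coords k x = ⊤ →
          GeneralType k L w ∧ PseudoGeomHyp k x ∧ CoverBound k ρ x) ∧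
    (IsComponent F y →
      ∀ (L : Type) [Field L] [Algebra k L] [Algebra L K] [IsScalarTower k L K]
        [FiniteDimensional L K], Module.finrank L K ≤ r →
        ∀ (M : ℕ) (x : Fin (M + 1) → L), x ≠ 0 → coords k x = ⊤ →
          [GeneralType k L w, PseudoGeomHyp k x, PseudoBounded k x, CurveBound k x,
            CoverBound k ρ x, ¬ IsUniruled k L w, ¬ Ruled k K].TFAE) := by
  refine ⟨fun h K' L _ _ _ _ _ _ _ _ _ _ hr M x hx hgen => ?_,
    fun hc L _ _ _ _ _ hr M x hx hgen => ?_⟩
  · obtain ⟨h1, -, h2, h3⟩ := dom_all (K' := K') hF hw hρ hN hy h hr hx hgen
    exact ⟨h1, h3, h2⟩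
  · have h := dom_tfae hF hw hρ hN hy hc hr hx hgen
    tfae_have 1 ↔ 2 := h.out 0 1
    tfae_have 1 ↔ 3 := h.out 0 2
    tfae_have 1 ↔ 4 := h.out 0 3
    tfae_have 1 ↔ 5 := h.out 0 4
    tfae_have 1 ↔ 6 := h.out 0 6
    tfae_have 1 ↔ 7 := h.out 0 7
    tfae_finish

end Pool.Agent.Results.MP_5b1cbc_ag.DominatedVarieties
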