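import Pool.Agent.Y741.MPtd

/-!
MP_5b1cbc_ag, Q1: generic complete intersections are of general type and pseudo-geometrically
hyperbolic, in the range `3 n + 3 ≤ 2 ∑ d_a + |A|`, with the exact exceptional set; and the exact
range of geometric hyperbolicity in dimension at least five.

Let `k` be an algebraically closed field of characteristic `0` and `k0` a subfield. Let `H_a`, for
`a` in a finite set `A`, be forms of degrees `d_a > 0` in `n + 1` variables over `k` whose
coefficients are, for all `a` together, algebraically independent over `k0` (for the complex numbers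
and `k0` countable, this holds outside of countably many proper closed subsets of the space of
coefficients). Let `X` be the closed subset `H_a = 0` (for all `a`) of projective space of dimension
`n`, which is a smooth complete intersection of dimension `n - |A|`, irreducible for `|A| < n`.

(I) Suppose that `3 n + 3 ≤ 2 ∑ d_a + |A|`. For a form `G` over `k` the following are equivalent:
(1) for all pointed curves `(C, c)` and all points `x` of `X` outside of `G = 0`, there are only
    finitely many morphisms `C → X` that map `c` to `x`;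
(2) all closed subvarieties of `X` of positive dimension that are not contained in `G = 0` are of
    general type;
(3) `G` vanishes on all lines in `X`.
Every closed subvariety `Y` of `X` of positive dimension `w ≥ 2 n + 2 - ∑ (d_a + 1)` is of general
type and not contained in `G = 0` for some `G` with these properties; for `|A| < n`, this includes
`Y = X`. So `X` is of general type and pseudo-geometrically hyperbolic, and the smallest possible
exceptional set is the closure of the union of the lines in `X`.

(II) Suppose that `dim X ≥ 5`, or `3 n + 3 ≤ 2 ∑ d_a + |A|`, or `∑ (d_a + 1) ≤ 2 n - 2`. Then the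
following are equivalent: for all pointed curves `(C, c)` and all points `x` of `X` there are only
finitely many morphisms `C → X` that map `c` to `x`; all closed subvarieties of `X` of positive
dimension are of general type; `X` contains no line; `2 n - 1 ≤ ∑ (d_a + 1)`.

The morphisms from a smooth curve to `X` extend to the smooth projective curve with the same
function field `L`, and are given by the points of `X` over `L`; the points of this projective curve
are the places of `L`. A closed subvariety of `X` of dimension `w` is given by its generic point `y`,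
in homogeneous coordinates, over its function field `K` or a finite extension of it; it is of general
type if `GeneralType k K w` (pluricanonical forms, regular at all prime divisors over it, whose
ratios contain `w` algebraically independent functions).
-/

set_option autoImplicit false

namespace Pool.Agent.Results.MP_5b1cbc_ag.GenericCompleteInters

open MvPolynomial FF Pool.Agent.W603.PV Pool.Agent.W603.LV Pool.Agent.W602.GT Pool.Agent.TH145.MG
open scoped LinearAlgebra.Projectivization

/-- Forms of degrees `d a` whose coefficients are algebraically independent over `k0`. -/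
def Generic {k A : Type} (k0 : Type) [Field k0] [Field k] [Algebra k0 k] {n : ℕ}
    (H : A → MvPolynomial (Fin (n + 1)) k) (d : A → ℕ) : Prop :=
  (∀ a, (H a).IsHomogeneous (d a)) ∧
    AlgebraicIndependent k0 fun p : (a : A) × {I : Fin (n + 1) →₀ ℕ // I.degree = d a} =>
      (H p.1).coeff p.2.1

/-- The point `x` of projective space is on `X`. -/
def OnX {k K A : Type} [Field k] [Field K] [Algebra k K] {n : ℕ}
    (H : A → MvPolynomial (Fin (n + 1)) k) (x : Fin (n + 1) → K) : Prop :=
  x ≠ 0 ∧ ∀ a, aeval x (H a) = 0

/-- A line, given by a vector space `W` of dimension two, that is contained in `X`. -/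
def Line {k A : Type} [Field k] {n : ℕ} (H : A → MvPolynomial (Fin (n + 1)) k)
    (W : Submodule k (Fin (n + 1) → k)) : Prop :=
  Module.finrank k W = 2 ∧ ∀ a, ∀ v ∈ W, eval v (H a) = 0

/-- The morphism with homogeneous coordinates `f` maps the point `c` of the curve to the point
`x`. -/
def MapsTo {k L : Type} [Field k] [Field L] [Algebra k L] {n : ℕ} (c : Place k L)
    (x : Fin (n + 1) → k) (f : Fin (n + 1) → L) : Prop :=
  ∀ i j, algebraMap k L (x i) * f j - algebraMap k L (x j) * f i = 0 ∨
    pord c f < c.ord (algebraMap k L (x i) * f j - algebraMap k L (x j) * f i)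

/-- The morphisms to `X`, from the smooth projective curve with function field `L`, that map the
point `c` to the point `x`. -/
def PointedMaps {k L A : Type} [Field k] [Field L] [Algebra k L] {n : ℕ}
    (H : A → MvPolynomial (Fin (n + 1)) k) (c : Place k L) (x : Fin (n + 1) → k) :
    Set (ℙ L (Fin (n + 1) → L)) :=
  {φ | ∃ (f : Fin (n + 1) → L) (hf : f ≠ 0), (∀ a, aeval f (H a) = 0) ∧ MapsTo c x f ∧
    φ = Projectivization.mk L f hf}

/-- There are only finitely many pointed maps to `(X, x)`, if `x` is not in `G = 0`. -/
def FinitePointedMaps {k A : Type} [Field k] {n : ℕ} (H : A → MvPolynomial (Fin (n + 1)) k)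
    (G : MvPolynomial (Fin (n + 1)) k) : Prop :=
  ∀ (L : Type) [Field L] [Algebra k L] [IsFF k L] (c : Place k L) (x : Fin (n + 1) → k),
    x ≠ 0 → (∀ a, eval x (H a) = 0) → eval x G ≠ 0 → (PointedMaps H c x).Finite

/-- `K` is (a finite extension of) the function field, and `y` the generic point, of a closed
subvariety of dimension `w` of `X`. -/
def Subvariety {k A K : Type} [Field k] [Field K] [Algebra k K] {n : ℕ}
    (H : A → MvPolynomial (Fin (n + 1)) k) (w : ℕ) (y : Fin (n + 1) → K) : Prop :=
  OnX H y ∧ Algebra.trdeg k K = w ∧ Algebra.IsAlgebraic (coords k y) K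

/-- All closed subvarieties of positive dimension of `X` that are not contained in `G = 0` are of
general type. -/
def GeneralTypeOutside {k A : Type} [Field k] {n : ℕ} (H : A → MvPolynomial (Fin (n + 1)) k)
    (G : MvPolynomial (Fin (n + 1)) k) : Prop :=
  ∀ (K : Type) [Field K] [Algebra k K] (w : ℕ) (y : Fin (n + 1) → K), 0 < w →
    Subvariety H w y → aeval y G ≠ 0 → GeneralType k K w

theorem result {n : ℕ} (hn : 1 ≤ n) {A : Type} [Fintype A] [DecidableEq A] {d : A → ℕ}
    (hd0 : ∀ a, 0 < d a)
    {k0 k : Type} [Field k0] [Field k] [Algebra k0 k] [IsAlgClosed k] [CharZero k]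
    (H : A → MvPolynomial (Fin (n + 1)) k) (hH : Generic k0 H d) :
    -- (I) the exceptional set
    (3 * n + 3 ≤ 2 * ∑ a, d a + Fintype.card A →
      (∀ (G : MvPolynomial (Fin (n + 1)) k) (e : ℕ), G.IsHomogeneous e →
        List.TFAE [FinitePointedMaps H G, GeneralTypeOutside H G,
          ∀ W, Line H W → ∀ v ∈ W, eval v G = 0]) ∧
      ∀ (K : Type) [Field K] [Algebra k K] (w : ℕ) (y : Fin (n + 1) → K), 0 < w →
        2 * n + 2 ≤ ∑ a, (d a + 1) + w → Subvariety H w y →
        GeneralType k K w ∧ ∃ (G : MvPolynomial (Fin (n + 1)) k) (e : ℕ), G.IsHomogeneous e ∧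
          aeval y G ≠ 0 ∧ FinitePointedMaps H G ∧ GeneralTypeOutside H G) ∧
    -- (II) the exact range
    (Fintype.card A + 5 ≤ n ∨ 3 * n + 3 ≤ 2 * ∑ a, d a + Fintype.card A ∨
        ∑ a, (d a + 1) ≤ 2 * n - 2 →
      List.TFAE [FinitePointedMaps H 1, GeneralTypeOutside H 1, ∀ W, ¬ Line H W,
        2 * n - 1 ≤ ∑ a, (d a + 1)]) := by
  obtain ⟨hG, hind⟩ := hH
  have hI : 3 * n + 3 ≤ 2 * ∑ a, d a + Fintype.card A →
      ∀ (G : MvPolynomial (Fin (n + 1)) k) (e : ℕ), G.IsHomogeneous e →
        List.TFAE [FinitePointedMaps H G, GeneralTypeOutside H G,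
          ∀ W, Line H W → ∀ v ∈ W, eval v G = 0] := by
    intro hd G e hGe
    have h1 : (∀ W, Line H W → ∀ v ∈ W, eval v G = 0) ↔ GeneralTypeOutside H G :=
      Pool.Agent.Y741.m_forms (k0 := k0) hn hd0 hG hind hd hGe
    tfae_have 2 ↔ 3 := h1.symm
    tfae_have 3 → 1 := fun h L _ _ _ c x hx _ hxG =>
      Pool.Agent.Y741.m_ptd (k0 := k0) hn hd0 hG hind hd hGe h c hx hxG
    tfae_have 1 → 3 := fun h W hW => Pool.Agent.Y741.ptd_line hGe h hW
    tfae_finish
  have e3 : ∀ {p : Prop}, ((∀ W, Line H W → ∀ v ∈ W, eval v (1 : MvPolynomial (Fin (n + 1)) k) = 0) ↔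
      p) → ((∀ W, ¬ Line H W) ↔ p) := by
    intro p hp
    rw [← hp]
    refine forall_congr' fun W => ⟨fun h hW => absurd hW h, fun h hW => ?_⟩
    have h1 := h hW 0 W.zero_mem
    rw [map_one] at h1
    exact one_ne_zero h1
  refine ⟨fun hd => ⟨hI hd, fun K _ _ w y hw hdw hy => ?_⟩, fun hdim => ?_⟩
  · obtain ⟨G, e, h1, h2, h3⟩ := Pool.Agent.Y741.m_sub (k0 := k0) hG hind hdw hy
    have h4 := hI hd G e h1
    have h5 : GeneralTypeOutside H G := (h4.out 2 1).1 h3
    exact ⟨h5 K w y hw hy h2, G, e, h1, h2, (h4.out 2 0).1 h3, h5⟩
  · have h1 := Pool.Agent.Y741.m_tfae (k0 := k0) hn hd0 hG hind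
      (by tauto)
    have hsum : ∑ a, (d a + 1) = ∑ a, d a + Fintype.card A := by
      rw [Finset.sum_add_distrib, Finset.sum_const, Finset.card_univ, smul_eq_mul, mul_one]
    have e1 : (∀ W, ¬ Line H W) ↔ 2 * n - 1 ≤ ∑ a, (d a + 1) := h1.out 4 5
    have e2 : Pool.Agent.Y741.AllX H ↔ ∀ W, ¬ Line H W := h1.out 3 4
    have e4 : GeneralTypeOutside H 1 ↔ Pool.Agent.Y741.AllX H := by
      refine forall_congr' fun K => forall_congr' fun _ => forall_congr' fun _ =>
        forall_congr' fun w => forall_congr' fun y => forall_congr' fun _ => forall_congr' fun _ => ?_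
      rw [map_one]
      simp
    have hrange : 2 * n - 1 ≤ ∑ a, (d a + 1) → 3 * n + 3 ≤ 2 * ∑ a, d a + Fintype.card A := by
      intro h
      rcases hdim with h1 | h1 | h1
      · omega
      · exact h1
      · omega
    tfae_have 2 ↔ 3 := e4.trans e2
    tfae_have 3 ↔ 4 := e1
    tfae_have 1 → 3 := by
      intro h W hW
      have h2 := Pool.Agent.Y741.ptd_line (isHomogeneous_one _ _) h hW 0 W.zero_mem
      rw [map_one] at h2
      exact one_ne_zero h2
    tfae_have 3 → 1 := fun h =>
      ((hI (hrange (e1.1 h)) 1 0 (isHomogeneous_one _ _)).out 2 0).1 fun W hW => absurd hW (h W)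
    tfae_finish

end Pool.Agent.Results.MP_5b1cbc_ag.GenericCompleteInters
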