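import Pool.Agent.Y192.FA.GAll

/-!
MP_5b1cbc_ag, Q1: general type and pseudo-geometric hyperbolicity are equivalent for all projective
varieties which are birational to covers `w j ^ e j = F j (t 0 ^ m, …, t n ^ m)` of arbitrary
projective varieties, `m` large.

`y` is the generic point, in homogeneous coordinates, of the projective variety `V` in `P^N` with
function field `L`. `PseudoGeomHyp ℂ y`: outside of a proper closed subset of `V`, for every pointed
curve there are only finitely many maps to `V` with a given value. `CurveBound ℂ y`: outside of a
proper closed subset, the degree of a map from a curve of genus `g` to `V` is at most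
`B * max (2 g - 2) 0`.
-/

set_option autoImplicit false

namespace Pool.Agent.Results.MP_5b1cbc_ag.KummerPointed

open Pool.Agent.W602.GT Pool.Agent.W602.RG Pool.Agent.Y216 Pool.Agent.Y192.KC Pool.Agent.Y192.FA

/-- Let `Z` be any irreducible projective variety in `P^n`, not in a coordinate hyperplane, with the
homogeneous prime ideal `I`, let `F 1, …, F r` be forms which do not vanish on `Z`, and let
`e 1, …, e r` be positive numbers (and `G = 1`). There is a number `m0` with the following property.
Let `m ≥ m0` be divisible by the `e j`, and let `X` be any irreducible component, of dimension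
`d > 0`, of the projective variety with the equations `f (t 0 ^ m, …, t n ^ m) = 0`, `f ∈ I`, and
`w j ^ e j = F j (t 0 ^ m, …, t n ^ m)` in the weighted projective space with the homogeneous
coordinates `t i` and `w j`; `L` is the function field of `X`, and `t`, `w` are the coordinates of its
generic point. Let `V` in `P^N` be any projective variety which is birational to `X`, with generic
point `y`. Then the following are equivalent:
(1) `V` is of general type,
(2) `V` is pseudo-geometrically hyperbolic,
(3) outside of a proper closed subset of `V`, the degrees of the maps from smooth projective curves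
of genus `g` to `V` are at most `B * max (2 g - 2) 0`,
(4) there is no one-parameter group of diagonal matrices which acts nontrivially on `P^n` and
preserves `Z` and the essential parts of the branch divisors `F j = 0` on `Z`. -/
theorem result {n r : ℕ} (X : ZCov n r) (hG : X.G = 1) :
    ∃ m0 : ℕ, ∀ m, m0 ≤ m → (∀ j, X.e j ∣ m) →
      ∀ (L : Type) [Field L] [Algebra ℂ L] (t : Fin (n + 1) → L) (w : Fin r → L),
      ZField X m L t w → ∀ d : ℕ, 1 ≤ d → Algebra.trdeg ℂ L = d →
      ∀ (N : ℕ) (y : Fin (N + 1) → L), y ≠ 0 → coords ℂ y = ⊤ →
      [GeneralType ℂ L d, PseudoGeomHyp ℂ y, CurveBound ℂ y, ¬ ZRed X].TFAE :=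
  mainP_all X hG

end Pool.Agent.Results.MP_5b1cbc_ag.KummerPointed
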