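import Pool.Agent.Y190.PH.Geo

/-!
MP_5b1cbc_ag, Q1: general type and pseudo-geometric hyperbolicity are equivalent for the projective
subvarieties of the varieties of the vectors whose `m`-th powers, for instance whose squares, are
the values of a polynomial of low degree at given constants.

`V` is a closed subvariety of the smooth complete intersection `X` of dimension `n` in `P^N` of the
vectors `x` for which there is a polynomial `H` of degree at most `n` with `x i ^ m = H (a i)` for
all `i`. It is given by its function field `K` and its generic point `y`, and `H` is the polynomial
of `y`. It is assumed that `H` is not divisible by the `m`-th power of a polynomial of degree at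
least two; this holds for all `V` if `n < 2 m`.

`GeneralType k K w`: there are `w + 1` pluricanonical forms, regular at all divisorial places of `K`,
with algebraically independent ratios. `PseudoGeomHyp k y`: outside a proper closed subset `G = 0`
of `V`, for every pointed curve there are only finitely many morphisms to `V` with a given value at
the marked point. `CurveBound k y`: outside a proper closed subset, the degree of a map from a curve
of genus `g` to `V` is at most `B * max (2 * g - 2) 0`. `Ruled k K`: `K` is a rational function field
in one variable over a subfield.
-/

set_option autoImplicit false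

namespace Pool.Agent.Results.MP_5b1cbc_ag.PolynomialValuePointed

open FF Pool.Agent.W603.LV Pool.Agent.W603.PV Pool.Agent.W602.GT Pool.Agent.Y190.BV
  Pool.Agent.W602.RG Pool.Agent.Y216

theorem result {k : Type} [Field k] [IsAlgClosed k] [CharZero k] {N n m : ℕ} (hm : 2 ≤ m)
    (hN : 4 * n + (n + 1) ^ 2 < 2 * (N + 1)) (a : Fin (N + 1) → k) (ha : Function.Injective a)
    (K : Type) [Field K] [Algebra k K] (w : ℕ) (y : Fin (N + 1) → K) (H : Polynomial K)
    (hy0 : y ≠ 0) (hgen : coords k y = ⊤) (hdim : Algebra.trdeg k K = w)
    (hdeg : H.natDegree ≤ n) (hy : ∀ i, y i ^ m = H.eval (algebraMap k K (a i)))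
    (hfac : ∀ q : Polynomial K, q ^ m ∣ H → q.natDegree ≤ 1) :
    [GeneralType k K w, PseudoGeomHyp k y, CurveBound k y, ¬ Ruled k K].TFAE :=
  Pool.Agent.Y190.PH.geo_tfae hm hN ha hy0 hgen hdim hdeg hy hfac

end Pool.Agent.Results.MP_5b1cbc_ag.PolynomialValuePointed
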